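import Pool.Agent.Helper1.UQ.St1
import Pool.Agent.Helper63.UNR.Trail

/-!
# Project UQ: modules STP and KAP from the trail expansion of `Pool.Agent.Helper63.UNR.Trail`
-/

set_option autoImplicit false

open Finset

namespace Pool.Agent.Helper63.UQ

open Classical Pool.Agent.Helper30.RCU Pool.Agent.Helper1.UQ

universe u

lemma ps_eq_lw {V ι : Type u} (φ : ι → Sym2 V) (q : ℝ) (F ω : Finset ι) :
    ps φ (2 / q) F ω = Pool.Agent.Helper63.UNR.lw φ q F ω := by
  unfold ps Pool.Agent.Helper63.UNR.lw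
  rw [union_comm]

lemma TW_eq {V ι : Type u} (φ : ι → Sym2 V) (p : ι → ℝ) (q : ℝ) (E T F : Finset ι) (g v : V) :
    TW φ p q E T F g v =
      Pool.Agent.Helper63.UNR.TW φ p q g E T F v / S φ p q E (fun _ => 1) := by
  unfold TW Pool.Agent.Helper63.UNR.TW
  simp only [ps_eq_lw]

theorem hSTP : StSTP.{u} := by
  intro V ι φ p q hp hp1 hq E T F g v b f hFT _ hfE hfT hf
  rw [TW_eq, TW_eq, TW_eq, TW_eq,
    Pool.Agent.Helper63.UNR.TW_step hq hFT (mem_sdiff.mpr ⟨hfE, hfT⟩) hf]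
  ring

end Pool.Agent.Helper63.UQ
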