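import Pool.Agent.Helper1.UQ.St2
import Pool.Agent.Helper63.UNR.Cmp

/-!
# Project UQ: module TRG (the trail theorem in a ball)
-/

set_option autoImplicit false

open Finset

namespace Pool.Agent.Helper63.UQ

open Classical Pool.Agent.Helper30.RCU Pool.Agent.Helper1.UQ

universe u

variable {V : Type u} {G : SimpleGraph V}

/-- the invariant of the reachable states; `m` more ghost queries are allowed -/
def Iv (G : SimpleGraph V) (x : V) (n R M : ℕ) (s : V → G.edgeSet) (T : Finset (GE G))
    (o : Option V) (m : ℕ) : Prop :=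
  T ⊆ (te G (bl G x n)).disjSum ((bl G x n).filter fun v => R ≤ G.dist x v) ∧
  T.toRight.card + m = M ∧
  ∃ W : Finset V, W ⊆ bl G x n ∧
    (∀ v, o = some v → v ∈ W) ∧
    (∀ u ∈ W, ∀ j ≤ G.dist x u, ∃ u' ∈ W, G.dist x u' = j) ∧
    (∀ e : G.edgeSet, Sum.inl e ∈ T → ∃ v ∈ (e : Sym2 V), v ∈ W) ∧
    (∀ u ∈ W, R ≤ G.dist x u → Sum.inr u ∈ T ∨ o = some u) ∧
    (∀ u ∈ W, G.dist x u < R → Sum.inl (s u) ∈ T ∨ o = some u) ∧
    (o = none → ∃ u ∈ W, R ≤ G.dist x u)

lemma pI_inl_of_mem {I : Finset V} {e : G.edgeSet} {v w : V} (he : (e : Sym2 V) = s(v, w))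
    (hv : v ∈ I) : pI G I (Sum.inl e) = s(some v, sg I (some w)) := by
  unfold pI cm ph
  simp only [Sum.elim_inl]
  rw [he, Sym2.map_mk, Sym2.map_mk, sg_some_of_mem hv]

lemma pI_inr_of_mem {I : Finset V} {v : V} (hv : v ∈ I) :
    pI G I (Sum.inr v) = s(some v, none) := by
  unfold pI cm ph
  simp only [Sum.elim_inr]
  rw [Sym2.map_mk, sg_some_of_mem hv, sg_none]

lemma sg_eq_some {I : Finset V} {o : Option V} {v : V} (h : sg I o = some v) : o = some v := by
  rcases o with _ | u
  · rw [sg_none] at h; exact absurd h (by simp)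
  · by_cases hu : u ∈ I
    · rw [sg_some_of_mem hu] at h; exact h
    · rw [sg_some_of_notMem hu] at h; exact absurd h (by simp)

lemma some_mem_pI_inl {I : Finset V} {e : G.edgeSet} {v : V}
    (h : some v ∈ pI G I (Sum.inl e)) : v ∈ (e : Sym2 V) := by
  unfold pI cm ph at h
  simp only [Sum.elim_inl] at h
  rw [Sym2.mem_map] at h
  obtain ⟨o, ho, hov⟩ := h
  rw [Sym2.mem_map] at ho
  obtain ⟨u, hu, rfl⟩ := ho
  have := sg_eq_some hov
  rw [Option.some.injEq] at this
  exact this ▸ hu

lemma some_mem_pI_inr {I : Finset V} {u v : V}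
    (h : some v ∈ pI G I (Sum.inr u)) : u = v := by
  unfold pI cm ph at h
  simp only [Sum.elim_inr] at h
  rw [Sym2.mem_map] at h
  obtain ⟨o, ho, hov⟩ := h
  have := sg_eq_some hov
  subst this
  rw [Sym2.mem_iff] at ho
  rcases ho with h | h
  · exact (Option.some.inj h).symm
  · exact absurd h (by simp)

/-- a step along an edge of the graph -/
lemma Iv_step (hG : G.Connected) (hlf : ∀ v, (G.neighborSet v).Finite) {x : V} {n R M : ℕ}
    (hRn : R < n) {s : V → G.edgeSet} {T : Finset (GE G)} {v w : V} {m : ℕ}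
    (hI : Iv G x n R M s T (some v) m) {e : G.edgeSet} (he : (e : Sym2 V) = s(v, w))
    (heT : Sum.inl e ∉ T) (h1 : R ≤ G.dist x v → Sum.inr v ∈ T)
    (h2 : G.dist x v < R → Sum.inl (s v) ∈ insert (Sum.inl e) T) :
    (Sum.inl e : GE G) ∈ (te G (bl G x n)).disjSum ((bl G x n).filter fun v => R ≤ G.dist x v) ∧
    pI G (bl G x n) (Sum.inl e) = s(some v, sg (bl G x n) (some w)) ∧
    Iv G x n R M s (insert (Sum.inl e) T) (some v) m ∧
    Iv G x n R M s (insert (Sum.inl e) T) (sg (bl G x n) (some w)) m := by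
  obtain ⟨hTE, hm, W, hW, hvW, hch, hed, hg, hs, _⟩ := hI
  have hv : v ∈ W := hvW v rfl
  have hvΛ : v ∈ bl G x n := hW hv
  have hvn : G.dist x v < n := (mem_bl hG hlf).mp hvΛ
  have hadj : G.Adj v w := by
    have := e.2
    rw [he] at this
    exact this
  have hdw : G.dist x w ≤ G.dist x v + 1 := by
    have h3 := hG.dist_triangle (u := x) (v := v) (w := w)
    have h4 : G.dist v w = 1 := SimpleGraph.dist_eq_one_iff_adj.mpr hadj
    omega
  have heE : (Sum.inl e : GE G) ∈
      (te G (bl G x n)).disjSum ((bl G x n).filter fun v => R ≤ G.dist x v) := by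
    rw [Finset.inl_mem_disjSum, mem_te hlf]
    exact ⟨v, by rw [he]; exact Sym2.mem_mk_left _ _, hvΛ⟩
  have hTE' := insert_subset heE hTE
  have hm' : (insert (Sum.inl e : GE G) T).toRight.card + m = M := by
    rw [Finset.toRight_insert_inl]; exact hm
  refine ⟨heE, pI_inl_of_mem he hvΛ, ⟨hTE', hm', W, hW, hvW, hch, ?_, ?_, ?_, ?_⟩, ?_⟩
  · intro e' he'
    rcases mem_insert.mp he' with h | h
    · rw [Sum.inl.injEq] at h
      exact ⟨v, by rw [h, he]; exact Sym2.mem_mk_left _ _, hv⟩
    · exact hed e' h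
  · intro u hu hud
    rcases hg u hu hud with h | h
    · exact Or.inl (mem_insert_of_mem h)
    · exact Or.inr h
  · intro u hu hud
    rcases hs u hu hud with h | h
    · exact Or.inl (mem_insert_of_mem h)
    · exact Or.inr h
  · intro h; exact absurd h (by simp)
  · by_cases hw : w ∈ bl G x n
    · rw [sg_some_of_mem hw]
      refine ⟨hTE', hm', insert w W, insert_subset hw hW, ?_, ?_, ?_, ?_, ?_, ?_⟩
      · intro u hu
        rw [Option.some.injEq] at hu
        exact hu ▸ mem_insert_self _ _
      · intro u hu j hj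
        rcases mem_insert.mp hu with h | h
        · subst h
          by_cases hjv : j ≤ G.dist x v
          · obtain ⟨u', hu', hd⟩ := hch v hv j hjv
            exact ⟨u', mem_insert_of_mem hu', hd⟩
          · exact ⟨u, mem_insert_self _ _, by omega⟩
        · obtain ⟨u', hu', hd⟩ := hch u h j hj
          exact ⟨u', mem_insert_of_mem hu', hd⟩
      · intro e' he'
        rcases mem_insert.mp he' with h | h
        · rw [Sum.inl.injEq] at h
          exact ⟨v, by rw [h, he]; exact Sym2.mem_mk_left _ _, mem_insert_of_mem hv⟩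
        · obtain ⟨u, hue, huW⟩ := hed e' h
          exact ⟨u, hue, mem_insert_of_mem huW⟩
      · intro u hu hud
        rcases mem_insert.mp hu with h | h
        · exact Or.inr (by rw [h])
        · rcases hg u h hud with h3 | h3
          · exact Or.inl (mem_insert_of_mem h3)
          · rw [Option.some.injEq] at h3
            subst h3
            exact Or.inl (mem_insert_of_mem (h1 hud))
      · intro u hu hud
        rcases mem_insert.mp hu with h | h
        · exact Or.inr (by rw [h])
        · rcases hs u h hud with h3 | h3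
          · exact Or.inl (mem_insert_of_mem h3)
          · rw [Option.some.injEq] at h3
            subst h3
            exact Or.inl (h2 hud)
      · intro h; exact absurd h (by simp)
    · rw [sg_some_of_notMem hw]
      have hwn : n ≤ G.dist x w := by
        by_contra h
        exact hw ((mem_bl hG hlf).mpr (by omega))
      have hvR : R ≤ G.dist x v := by omega
      refine ⟨hTE', hm', W, hW, ?_, hch, ?_, ?_, ?_, fun _ => ⟨v, hv, hvR⟩⟩
      · intro u hu; exact absurd hu (by simp)
      · intro e' he'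
        rcases mem_insert.mp he' with h | h
        · rw [Sum.inl.injEq] at h
          exact ⟨v, by rw [h, he]; exact Sym2.mem_mk_left _ _, hv⟩
        · exact hed e' h
      · intro u hu hud
        rcases hg u hu hud with h | h
        · exact Or.inl (mem_insert_of_mem h)
        · rw [Option.some.injEq] at h
          subst h
          exact Or.inl (mem_insert_of_mem (h1 hud))
      · intro u hu hud
        rcases hs u hu hud with h | h
        · exact Or.inl (mem_insert_of_mem h)
        · rw [Option.some.injEq] at h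
          subst h
          omega

/-- the rule for the next edge -/
lemma Iv_rule (hG : G.Connected) (hlf : ∀ v, (G.neighborSet v).Finite) {x : V} {n R M : ℕ}
    (hRn : R < n) {s : V → G.edgeSet} (hs : ∀ v, v ∈ (s v : Sym2 V)) {p t : ℝ}
    (T : Finset (GE G)) (o : Option V) (m : ℕ) (hI : Iv G x n R M s T o m) (ho : o ≠ none) :
    m = 0 ∨ (∀ e ∈ (te G (bl G x n)).disjSum ((bl G x n).filter fun v => R ≤ G.dist x v), e ∉ T →
        o ∉ pI G (bl G x n) e) ∨
      (∃ f ∈ (te G (bl G x n)).disjSum ((bl G x n).filter fun v => R ≤ G.dist x v), f ∉ T ∧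
        ∃ b, pI G (bl G x n) f = s(o, b) ∧ Iv G x n R M s (insert f T) o m ∧
          Iv G x n R M s (insert f T) b m) ∨
      (∃ f ∈ (te G (bl G x n)).disjSum ((bl G x n).filter fun v => R ≤ G.dist x v), f ∉ T ∧
        pI G (bl G x n) f = s(o, none) ∧ 2 * (t / 2) ≤ pr G p t f ∧ ∃ m', m = m' + 1 ∧
        Iv G x n R M s (insert f T) o m' ∧ Iv G x n R M s (insert f T) none m') := by
  obtain ⟨v, rfl⟩ := Option.ne_none_iff_exists'.mp ho
  by_cases hc1 : R ≤ G.dist x v ∧ (Sum.inr v : GE G) ∉ T
  · -- the ghost edge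
    obtain ⟨hvR, hvT⟩ := hc1
    rcases Nat.eq_zero_or_pos m with hm0 | hm0
    · exact Or.inl hm0
    · right; right; right
      obtain ⟨hTE, hm, W, hW, hvW, hch, hed, hg, hsp, _⟩ := hI
      have hv : v ∈ W := hvW v rfl
      have hvΛ : v ∈ bl G x n := hW hv
      have hvE : (Sum.inr v : GE G) ∈
          (te G (bl G x n)).disjSum ((bl G x n).filter fun v => R ≤ G.dist x v) := by
        rw [Finset.inr_mem_disjSum, mem_filter]
        exact ⟨hvΛ, hvR⟩
      have hm' : (insert (Sum.inr v : GE G) T).toRight.card + (m - 1) = M := by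
        rw [Finset.toRight_insert_inr, card_insert_of_notMem (by rwa [mem_toRight])]
        omega
      refine ⟨Sum.inr v, hvE, hvT, pI_inr_of_mem hvΛ, ?_, m - 1, by omega,
        ⟨insert_subset hvE hTE, hm', W, hW, hvW, hch, ?_, ?_, ?_, ?_⟩,
        ⟨insert_subset hvE hTE, hm', W, hW, ?_, hch, ?_, ?_, ?_, fun _ => ⟨v, hv, hvR⟩⟩⟩
      · show 2 * (t / 2) ≤ t
        linarith
      · intro e he
        rcases mem_insert.mp he with h | h
        · exact absurd h (by simp)
        · exact hed e h
      · intro u hu hud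
        rcases hg u hu hud with h | h
        · exact Or.inl (mem_insert_of_mem h)
        · exact Or.inr h
      · intro u hu hud
        rcases hsp u hu hud with h | h
        · exact Or.inl (mem_insert_of_mem h)
        · exact Or.inr h
      · intro h; exact absurd h (by simp)
      · intro u hu; exact absurd hu (by simp)
      · intro e he
        rcases mem_insert.mp he with h | h
        · exact absurd h (by simp)
        · exact hed e h
      · intro u hu hud
        rcases hg u hu hud with h | h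
        · exact Or.inl (mem_insert_of_mem h)
        · rw [Option.some.injEq] at h
          subst h
          exact Or.inl (mem_insert_self _ _)
      · intro u hu hud
        rcases hsp u hu hud with h | h
        · exact Or.inl (mem_insert_of_mem h)
        · rw [Option.some.injEq] at h
          subst h
          omega
  · have hc1' : R ≤ G.dist x v → (Sum.inr v : GE G) ∈ T := fun h => by
      by_contra h2
      exact hc1 ⟨h, h2⟩
    by_cases hc2 : G.dist x v < R ∧ (Sum.inl (s v) : GE G) ∉ T
    · right; right; left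
      obtain ⟨w, hw⟩ := Sym2.mem_iff_exists.mp (hs v)
      obtain ⟨h1, h2, h3, h4⟩ := Iv_step hG hlf hRn hI hw hc2.2 hc1'
        (fun _ => mem_insert_self _ _)
      exact ⟨_, h1, hc2.2, _, h2, h3, h4⟩
    · have hc2' : G.dist x v < R → (Sum.inl (s v) : GE G) ∈ T := fun h => by
        by_contra h2
        exact hc2 ⟨h, h2⟩
      by_cases hc3 : ∃ e ∈ te G (bl G x n), v ∈ (e : Sym2 V) ∧ (Sum.inl e : GE G) ∉ T
      · right; right; left
        obtain ⟨e, _, hve, heT⟩ := hc3
        obtain ⟨w, hw⟩ := Sym2.mem_iff_exists.mp hve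
        obtain ⟨h1, h2, h3, h4⟩ := Iv_step hG hlf hRn hI hw heT hc1'
          (fun h => mem_insert_of_mem (hc2' h))
        exact ⟨_, h1, heT, _, h2, h3, h4⟩
      · right; left
        intro e he heT hve
        rcases e with e | u
        · rw [Finset.inl_mem_disjSum] at he
          exact hc3 ⟨e, he, some_mem_pI_inl hve, heT⟩
        · rw [Finset.inr_mem_disjSum, mem_filter] at he
          have := some_mem_pI_inr hve
          subst this
          exact heT (hc1' he.2)

lemma prod_rr_le {p p' t : ℝ} (hp' : 0 < p') (hpp : p' < p) (hp : p < 1) (ht : 0 < t)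
    (ht1 : t < 1) (F : Finset (GE G)) {K : ℕ} (hF : F.toLeft.card ≤ K) :
    (∏ e ∈ F, pr G p t e * (1 - pr G p' t e) / (pr G p' t e * (1 - pr G p t e))) ≤
      rr p p' ^ K := by
  have hrr : 1 ≤ rr p p' := by
    unfold rr
    rw [le_div_iff₀ (mul_pos hp' (by linarith))]
    nlinarith
  refine le_trans ?_ (pow_le_pow_right₀ hrr hF)
  have h1 : ∀ e : GE G, pr G p t e * (1 - pr G p' t e) / (pr G p' t e * (1 - pr G p t e)) =
      Sum.elim (fun _ => rr p p') (fun _ => (1 : ℝ)) e := by
    rintro (e | v)
    · rfl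
    · show t * (1 - t) / (t * (1 - t)) = 1
      exact div_self (mul_pos ht (by linarith)).ne'
  rw [prod_congr rfl fun e _ => h1 e]
  have h2 : F = F.toLeft.disjSum F.toRight := (Finset.toLeft_disjSum_toRight).symm
  conv_lhs => rw [h2]
  rw [Finset.prod_disjSum]
  simp

/-- the rule for the next edge, for any instance of decidable equality -/
lemma Iv_rule_inst {V : Type u} {G : SimpleGraph V} (hG : G.Connected)
    (hlf : ∀ v, (G.neighborSet v).Finite) {x : V} {n R M : ℕ}
    (hRn : R < n) {s : V → G.edgeSet} (hs : ∀ v, v ∈ (s v : Sym2 V)) {p t : ℝ}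
    (T : Finset (GE G)) (o : Option V) (m : ℕ) (hI : Iv G x n R M s T o m) (ho : o ≠ none)
    (inst : DecidableEq (GE G)) :
    m = 0 ∨ (∀ e ∈ (te G (bl G x n)).disjSum ((bl G x n).filter fun v => R ≤ G.dist x v), e ∉ T →
        o ∉ pI G (bl G x n) e) ∨
      (∃ f ∈ (te G (bl G x n)).disjSum ((bl G x n).filter fun v => R ≤ G.dist x v), f ∉ T ∧
        ∃ b, pI G (bl G x n) f = s(o, b) ∧
          Iv G x n R M s (@Insert.insert _ _ (@Finset.instInsert _ inst) f T) o m ∧
          Iv G x n R M s (@Insert.insert _ _ (@Finset.instInsert _ inst) f T) b m) ∨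
      (∃ f ∈ (te G (bl G x n)).disjSum ((bl G x n).filter fun v => R ≤ G.dist x v), f ∉ T ∧
        pI G (bl G x n) f = s(o, none) ∧ 2 * (t / 2) ≤ pr G p t f ∧ ∃ m', m = m' + 1 ∧
        Iv G x n R M s (@Insert.insert _ _ (@Finset.instInsert _ inst) f T) o m' ∧
        Iv G x n R M s (@Insert.insert _ _ (@Finset.instInsert _ inst) f T) none m') := by
  have h : inst = fun a b => instDecidableEqSum a b := Subsingleton.elim _ _
  subst h
  exact Iv_rule hG hlf hRn hs T o m hI ho

theorem hTRG (hTRA : StTRA.{u}) (hLEA : StLEA.{u}) : StTRG.{u} := by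
  intro V G hG hlf p p' t q hp' hpp hp ht ht1 hq hq2 x n R M d k ρ hR hRn hdeg s hs η hη hk hcl
  set Λ := bl G x n with hΛ
  set E : Finset (GE G) := (te G Λ).disjSum (Λ.filter fun v => R ≤ G.dist x v) with hE
  set c : ℝ := rr p p' ^ (d * ((bl G x R).card + M + 1)) * η with hc
  have hrr : 1 ≤ rr p p' := by
    unfold rr
    rw [le_div_iff₀ (mul_pos hp' (by linarith))]
    nlinarith
  have hc0 : 0 ≤ c := mul_nonneg (pow_nonneg (zero_le_one.trans hrr) _) hη
  have P0 : ∀ e, 0 ≤ pr G p t e := pr_nonneg (by linarith) ht.le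
  have P1 : ∀ e, pr G p t e ≤ 1 := pr_le_one hp.le ht1.le
  have Q0 : ∀ e, 0 ≤ pr G p' t e := pr_nonneg hp'.le ht.le
  have Q1 : ∀ e, pr G p' t e ≤ 1 := pr_le_one (by linarith) ht1.le
  have QP : ∀ e, pr G p' t e ≤ pr G p t e := by
    rintro (e | v)
    · exact hpp.le
    · exact le_rfl
  have hstr : ∀ e : GE G, 0 < pr G p' t e ∧ pr G p t e < 1 := by
    rintro (e | v)
    · exact ⟨hp', hp⟩
    · exact ⟨ht, ht1⟩
  have hleaf : ∀ (T : Finset (GE G)) (m : ℕ), Iv G x n R M s T none m → ∀ F ⊆ T,
      TW (pI G Λ) (pr G p t) q E T F none none ≤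
        c * TW (pI G Λ) (pr G p' t) q E T F none none := by
    intro T m hI F hF
    obtain ⟨hTE, hm, W, hW, _, hch, hed, hg, hsp, hnn⟩ := hI
    obtain ⟨u0, hu0, hu0R⟩ := hnn rfl
    have hg' : ∀ u ∈ W, R ≤ G.dist x u → (Sum.inr u : GE G) ∈ T := by
      intro u hu hud
      rcases hg u hu hud with h | h
      · exact h
      · exact absurd h (by simp)
    have hsp' : ∀ u ∈ W, G.dist x u < R → (Sum.inl (s u) : GE G) ∈ T := by
      intro u hu hud
      rcases hsp u hu hud with h | h
      · exact h
      · exact absurd h (by simp)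
    -- the chain
    have hch' : ∀ j : ℕ, ∃ u : V, j < k → u ∈ W ∧ G.dist x u = j * ρ := by
      intro j
      by_cases hj : j < k
      · obtain ⟨u, hu, hud⟩ := hch u0 hu0 (j * ρ) (by have := hk j hj; omega)
        exact ⟨u, fun _ => ⟨hu, hud⟩⟩
      · exact ⟨x, fun h => absurd h hj⟩
    choose u hu using hch'
    set T1 : Finset (GE G) := (range k).image fun j => Sum.inl (s (u j)) with hT1
    have hT1T : T1 ⊆ T := by
      intro e he
      obtain ⟨j, hj, rfl⟩ := mem_image.mp he
      rw [mem_range] at hj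
      obtain ⟨h1, h2⟩ := hu j hj
      exact hsp' _ h1 (by rw [h2]; exact hk j hj)
    have hclj := hcl u fun j hj => (hu j hj).2
    -- the number of edges
    have hWc : W.card ≤ (bl G x R).card + M := by
      have h1 : W ⊆ bl G x R ∪ T.toRight := by
        intro v hv
        rw [mem_union]
        by_cases hvR : G.dist x v < R
        · exact Or.inl ((mem_bl hG hlf).mpr hvR)
        · exact Or.inr (mem_toRight.mpr (hg' v hv (by omega)))
      have h2 := (card_le_card h1).trans (card_union_le _ _)
      omega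
    have hTl : T.toLeft.card ≤ d * ((bl G x R).card + M + 1) := by
      have h1 : T.toLeft ⊆ W.biUnion fun v => te G {v} := by
        intro e he
        obtain ⟨v, hve, hvW⟩ := hed e (mem_toLeft.mp he)
        exact mem_biUnion.mpr ⟨v, hvW, (mem_te hlf).mpr ⟨v, hve, mem_singleton_self _⟩⟩
      have h2 := (card_le_card h1).trans (card_biUnion_le_card_mul W _ d fun v _ => hdeg v)
      calc T.toLeft.card ≤ W.card * d := h2
        _ ≤ ((bl G x R).card + M + 1) * d := Nat.mul_le_mul_right _ (by omega)
        _ = d * ((bl G x R).card + M + 1) := Nat.mul_comm _ _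
    have hFl : F.toLeft.card ≤ d * ((bl G x R).card + M + 1) :=
      (card_le_card (fun e he => mem_toLeft.mpr (hF (mem_toLeft.mp he)))).trans hTl
    have h3 := hLEA (Option V) (GE G) (pI G Λ) (pr G p t) (pr G p' t) q Q0 QP P1 hq hq2 E T F T1
      none (fun e _ => hstr e) hF hTE hT1T
    have h4 := prod_rr_le (G := G) hp' hpp hp ht ht1 F hFl
    have hT1E : T1 ⊆ E := hT1T.trans hTE
    have hclpos : 0 < cl (pI G Λ) (pr G p' t) q E T1 := by
      have h5 := Pool.Agent.Helper63.UNR.cl_eq (φ := pI G Λ) (p := pr G p' t) (q := q) hT1E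
      have h6 : cl (pI G Λ) (pr G p' t) q E T1 =
        Pool.Agent.Helper63.UNR.cl (pI G Λ) (pr G p' t) q E T1 := rfl
      rw [h6, h5]
      refine div_pos (mul_pos (prod_pos fun e _ => ?_) (S_one_pos Q0 Q1 hq _))
        (S_one_pos Q0 Q1 hq _)
      have := (hstr e).2
      linarith [QP e]
    have hW0 : 0 ≤ TW (pI G Λ) (pr G p' t) q E T F none none := by
      unfold TW
      refine div_nonneg (mul_nonneg (mul_nonneg (prod_nonneg fun e _ => ?_)
        (prod_nonneg fun e _ => ?_)) (S_nonneg Q0 Q1 hq _ fun ω => mul_nonneg ?_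
          (ind_nonneg _ _ _))) (S_one_pos Q0 Q1 hq _).le
      · have := Q0 e; linarith
      · have := Q1 e; linarith
      · unfold ps; positivity
    have hcn : 0 ≤ cl (pI G Λ) (pr G p t) q E T1 := by
      unfold cl
      refine ex_nonneg P0 P1 hq _ fun ω => ?_
      unfold nt
      split_ifs <;> norm_num
    have h7 : (∏ e ∈ F, pr G p t e * (1 - pr G p' t e) / (pr G p' t e * (1 - pr G p t e))) *
        cl (pI G Λ) (pr G p t) q E T1 ≤ rr p p' ^ (d * ((bl G x R).card + M + 1)) *
          (η * cl (pI G Λ) (pr G p' t) q E T1) :=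
      mul_le_mul h4 hclj hcn (pow_nonneg (zero_le_one.trans hrr) _)
    have h8 := mul_le_mul_of_nonneg_right h7 hW0
    have h9 : TW (pI G Λ) (pr G p t) q E T F none none * cl (pI G Λ) (pr G p' t) q E T1 ≤
        (c * TW (pI G Λ) (pr G p' t) q E T F none none) * cl (pI G Λ) (pr G p' t) q E T1 := by
      refine h3.trans (h8.trans (le_of_eq ?_))
      rw [hc]; ring
    exact le_of_mul_le_mul_right h9 hclpos
  have hmain := hTRA (Option V) (GE G) (pI G Λ) (pr G p t) (pr G p' t) q P0 P1 Q0 Q1 hq hq2 E none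
    (t / 2) c (by linarith) (by linarith) hc0 (Iv G x n R M s) (fun T v m h => h.1) hleaf
    (fun T v m h hv => Iv_rule_inst hG hlf hRn hs T v m h hv (fun a b => propDecidable (a = b)))
  have hxn : x ∈ Λ := by
    rw [hΛ, mem_bl hG hlf, SimpleGraph.dist_self]; omega
  have hini : Iv G x n R M s ∅ (some x) M := by
    have h0 : (∅ : Finset (GE G)).toRight = ∅ := by ext y; simp
    refine ⟨empty_subset _, by rw [h0]; simp, {x}, ?_, ?_, ?_, ?_, ?_, ?_, ?_⟩
    · intro v hv
      rw [mem_singleton.mp hv]; exact hxn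
    · intro v hv
      rw [Option.some.injEq] at hv
      rw [hv]; exact mem_singleton_self _
    · intro v hv j hj
      rw [mem_singleton.mp hv, SimpleGraph.dist_self] at hj
      exact ⟨x, mem_singleton_self _, by rw [SimpleGraph.dist_self]; omega⟩
    · intro e he
      exact absurd he (notMem_empty _)
    · intro v hv _
      exact Or.inr (by rw [mem_singleton.mp hv])
    · intro v hv _
      exact Or.inr (by rw [mem_singleton.mp hv])
    · intro h; exact absurd h (by simp)
  have h1 := hmain ∅ (some x) M hini ∅ (subset_refl _)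
  have hTW0 : ∀ r : GE G → ℝ, TW (pI G Λ) r q E ∅ ∅ none (some x) =
      ex (pI G Λ) r q E (ind (pI G Λ) (some x) none) := by
    intro r
    unfold TW ex
    simp only [prod_empty, one_mul, sdiff_empty]
    have : (fun ω : Finset (GE G) => ps (pI G Λ) (2 / q) ∅ ω * ind (pI G Λ) (some x) none ω) =
        ind (pI G Λ) (some x) none := by
      funext ω
      unfold ps
      simp
    rw [this]
  rw [hTW0, hTW0] at h1
  have h2 : ex (pI G Λ) (pr G p' t) q E (ind (pI G Λ) (some x) none) ≤ 1 := by
    have h3 := ex_le (φ := pI G Λ) Q0 Q1 hq E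
      (f := ind (pI G Λ) (some x) none) (g := fun _ => 1) fun ω => ind_le_one _ _ ω
    rwa [ex_const Q0 Q1 hq] at h3
  have h3 : c * ex (pI G Λ) (pr G p' t) q E (ind (pI G Λ) (some x) none) ≤ c := by
    have := mul_le_mul_of_nonneg_left h2 hc0
    linarith
  show ex (pI G Λ) (pr G p t) q E (ind (pI G Λ) (some x) none) * (1 - (1 - t / 2) ^ M) ≤ c
  linarith

end Pool.Agent.Helper63.UQ
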